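import Mathlib
import Pool.Agent.H53.GB.Lin
import Pool.Agent.H53.GB.Main

/-!
MP_764677_ag, Q1: the graded Betti number `b_{n-1,n}` of a graph curve in `P^n` is the number of bridges of
the graph (`n = N + 1`; one always has `n ≥ 1`).

The Betti numbers `b_{i,j} = dim Tor_i(R, k)_j` of the homogeneous coordinate ring `R` of a union `C` of
lines (here `C` is the set of the points of the affine cone) are defined as the dimensions of the
homology of the Koszul complex `∧^i S_1 ⊗ R_q`, `q = j - i`. Here `S_1` is the dual of the vector space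
`k^(n+1)`, so that `∧^i S_1` is the space of the alternating `i`-forms on `k^(n+1)`, and `R_q` is the
space of the restrictions to `C` of the forms of degree `q`; the elements of `∧^i S_1 ⊗ R_q` are the
functions on `C` with values in the alternating `i`-forms which are sums of products `F η`, and the
differential is the contraction with the point `x`.
-/

set_option autoImplicit false

namespace Pool.Agent.Results.MP_764677_ag.BridgesAndBetti

/-- The genus `m(H) - d(H) + 1` of a subgraph. -/
noncomputable def genus {V : Type} {G : SimpleGraph V} (H : G.Subgraph) : ℤ :=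
  (H.edgeSet.ncard : ℤ) - H.verts.ncard + 1

/-- Condition (A) on the finite simple graph `G`, without planarity: `G` is connected, all degrees
are at most three, not all are three, and `d(H) ≥ 2 g(H) + 1` for all connected subgraphs `H`. -/
structure ConditionA {V : Type} (G : SimpleGraph V) : Prop where
  connected : G.Connected
  degree_le : ∀ v, (G.neighborSet v).ncard ≤ 3
  degree_ne : ∃ v, (G.neighborSet v).ncard ≠ 3
  genus_le : ∀ H : G.Subgraph, H.Connected → 2 * genus H + 1 ≤ (H.verts.ncard : ℤ)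

/-- The planes `ℓ v` in `k^(N+2)`, that is the lines in `P^(N+1)`, form a graph curve of `G`. -/
structure IsGraphCurve {k : Type} [Field k] {V : Type} (G : SimpleGraph V) {N : ℕ}
    (ℓ : V → Submodule k (Fin (N + 2) → k)) : Prop where
  line : ∀ v, Module.finrank k (ℓ v) = 2
  distinct : Function.Injective ℓ
  meet : ∀ u v, G.Adj u v → Module.finrank k (ℓ u ⊓ ℓ v : Submodule k (Fin (N + 2) → k)) = 1
  points : ∀ u v u' v', G.Adj u v → G.Adj u' v' → ℓ u ⊓ ℓ v = ℓ u' ⊓ ℓ v' → s(u, v) = s(u', v')
  disjoint : ∀ u v, u ≠ v → ¬ G.Adj u v → ℓ u ⊓ ℓ v = ⊥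
  nondegenerate : ⨆ v, ℓ v = ⊤

section Koszul

variable {k : Type} [Field k] {m : ℕ} (C : Set (Fin m → k))

/-- The functions on `C` with values in the alternating `i`-forms on `k^m`. -/
def Fn (i : ℕ) : Type := C → (Fin m → k) [⋀^Fin i]→ₗ[k] k

noncomputable instance (i : ℕ) : AddCommGroup (Fn C i) :=
  inferInstanceAs (AddCommGroup (C → (Fin m → k) [⋀^Fin i]→ₗ[k] k))

noncomputable instance (i : ℕ) : Module k (Fn C i) :=
  inferInstanceAs (Module k (C → (Fin m → k) [⋀^Fin i]→ₗ[k] k))

/-- `∧^i S_1 ⊗ R_q`, as a space of functions on `C` with values in the alternating `i`-forms. -/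
noncomputable def forms (i q : ℕ) : Submodule k (Fn C i) :=
  Submodule.span k {ω | ∃ (F : MvPolynomial (Fin m) k) (η : (Fin m → k) [⋀^Fin i]→ₗ[k] k),
    F.IsHomogeneous q ∧ ω = fun x => MvPolynomial.eval x.1 F • η}

/-- The Koszul differential, the contraction with the point `x`. -/
noncomputable def koszul (i : ℕ) : Fn C (i + 1) →ₗ[k] Fn C i where
  toFun ω x := (ω x).curryLeft x.1
  map_add' ω ω' := by
    funext x
    exact congrArg (fun f => f x.1) (AlternatingMap.curryLeft_add (ω x) (ω' x))
  map_smul' c ω := by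
    funext x
    exact congrArg (fun f => f x.1) (AlternatingMap.curryLeft_smul c (ω x))

/-- The cycles in `∧^i S_1 ⊗ R_q`: the contraction of `ω x` with `x` vanishes for all `x` in `C`
(for `i = 0` there is no condition). -/
noncomputable def cycles (i q : ℕ) : Submodule k (Fn C i) where
  carrier := {ω | ω ∈ forms C i q ∧ ∀ (x : C) (w : Fin i → Fin m → k), x.1 ∈ Set.range w → ω x w = 0}
  zero_mem' := ⟨zero_mem _, fun _ _ _ => rfl⟩
  add_mem' := fun {a b} ha hb => ⟨add_mem ha.1 hb.1, fun x w hw => by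
    change a x w + b x w = 0
    rw [ha.2 x w hw, hb.2 x w hw, add_zero]⟩
  smul_mem' := fun c a ha => ⟨Submodule.smul_mem _ c ha.1, fun x w hw => by
    change c • a x w = 0
    rw [ha.2 x w hw, smul_zero]⟩

/-- The graded Betti number `b_{i,i+q+1}` of the coordinate ring of `C`: the dimension of the homology
of the Koszul complex at `∧^i S_1 ⊗ R_{q+1}`. -/
noncomputable def betti (i q : ℕ) : ℕ :=
  Module.finrank k (cycles C i (q + 1) ⧸
    ((forms C (i + 1) q).map (koszul C i)).comap (cycles C i (q + 1)).subtype)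

end Koszul

/-- The points of the affine cone over the union of the lines. -/
def cone {k : Type} [Field k] {V : Type} {N : ℕ} (ℓ : V → Submodule k (Fin (N + 2) → k)) :
    Set (Fin (N + 2) → k) := {x | ∃ v, x ∈ ℓ v}

/-- The bridges: the edges whose deletion leaves a disconnected graph. -/
def bridges {V : Type} (G : SimpleGraph V) : Set (Sym2 V) :=
  {e | e ∈ G.edgeSet ∧ ¬ (G.deleteEdges {e}).Connected}

section proof

open Pool.Agent.H53.GB SimpleGraph

variable {k : Type} [Field k] {m : ℕ} {C : Set (Fin m → k)}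

lemma eval_linear {F : MvPolynomial (Fin m) k} (hF : F.IsHomogeneous 1) :
    ∃ φ : (Fin m → k) →ₗ[k] k, ∀ x, MvPolynomial.eval x F = φ x := by
  classical
  have h1 : F = ∑ i, MvPolynomial.C (F.coeff (Finsupp.single i 1)) * MvPolynomial.X i := by
    ext d
    rw [MvPolynomial.coeff_sum]
    by_cases hd : d.degree = 1
    · obtain ⟨j, rfl⟩ : ∃ j, d = Finsupp.single j 1 := by
        rw [Finsupp.degree_eq_sum] at hd
        obtain ⟨j, hj⟩ : ∃ j, d j ≠ 0 := by
          by_contra hno
          push Not at hno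
          simp [hno] at hd
        refine ⟨j, ?_⟩
        rw [← Finset.add_sum_erase _ _ (Finset.mem_univ j)] at hd
        have h2 : ∑ i ∈ Finset.univ.erase j, d i = 0 := by omega
        rw [Finset.sum_eq_zero_iff] at h2
        ext i
        by_cases hi : i = j
        · subst hi
          simp
          omega
        · rw [Finsupp.single_eq_of_ne hi]
          exact h2 i (by simp [hi])
      rw [Finset.sum_eq_single j]
      · rw [MvPolynomial.coeff_C_mul, MvPolynomial.coeff_X, if_pos rfl, mul_one]
      · intro i _ hi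
        rw [MvPolynomial.coeff_C_mul, MvPolynomial.coeff_X, if_neg, mul_zero]
        intro h
        exact hi ((Finsupp.single_left_inj one_ne_zero).1 h)
      · simp
    · rw [hF.coeff_eq_zero hd, Finset.sum_eq_zero]
      intro i _
      rw [MvPolynomial.coeff_C_mul, MvPolynomial.coeff_X, if_neg, mul_zero]
      rintro rfl
      exact hd (by simp)
  refine ⟨∑ i, F.coeff (Finsupp.single i 1) • LinearMap.proj i, fun x => ?_⟩
  conv_lhs => rw [h1]
  simp

/-- the value of a function at the point `x` -/
def evalAt (i : ℕ) (x : C) : Fn C i →ₗ[k] ((Fin m → k) [⋀^Fin i]→ₗ[k] k) where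
  toFun ω := ω x
  map_add' _ _ := rfl
  map_smul' _ _ := rfl

lemma fn_sum_apply {ι : Type} {i : ℕ} (s : Finset ι) (f : ι → Fn C i) (x : C) :
    (∑ j ∈ s, f j) x = ∑ j ∈ s, f j x :=
  map_sum (evalAt i x) f s

lemma mem_forms_one {i : ℕ} {ω : Fn C i} :
    ω ∈ forms C i 1 ↔ ∃ α : (Fin m → k) →ₗ[k] ((Fin m → k) [⋀^Fin i]→ₗ[k] k), ∀ x, ω x = α x.1 := by
  constructor
  · intro h
    let S : Submodule k (Fn C i) :=
      { carrier := {ω | ∃ α : (Fin m → k) →ₗ[k] ((Fin m → k) [⋀^Fin i]→ₗ[k] k), ∀ x, ω x = α x.1}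
        zero_mem' := ⟨0, fun _ => rfl⟩
        add_mem' := by
          rintro a b ⟨α, hα⟩ ⟨β, hβ⟩
          exact ⟨α + β, fun x => by
            change a x + b x = α x.1 + β x.1
            rw [hα, hβ]⟩
        smul_mem' := by
          rintro c a ⟨α, hα⟩
          exact ⟨c • α, fun x => by
            change c • a x = c • α x.1
            rw [hα]⟩ }
    have hle : forms C i 1 ≤ S := by
      refine Submodule.span_le.2 ?_
      rintro _ ⟨F, η, hF, rfl⟩
      obtain ⟨φ, hφ⟩ := eval_linear hF
      exact ⟨φ.smulRight η, fun x => by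
        change MvPolynomial.eval x.1 F • η = φ x.1 • η
        rw [hφ]⟩
    exact hle h
  · rintro ⟨α, hα⟩
    have h1 : ω = ∑ j, (fun x =>
        MvPolynomial.eval x.1 (MvPolynomial.X j : MvPolynomial (Fin m) k) • α (Pi.single j 1) :
          Fn C i) := by
      funext x
      refine Eq.trans ?_ (fn_sum_apply _ _ x).symm
      rw [hα]
      simp only [MvPolynomial.eval_X]
      conv_lhs => rw [pi_eq_sum_univ' x.1]
      rw [map_sum]
      refine Finset.sum_congr rfl fun j _ => ?_
      rw [map_smul]
    rw [h1]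
    exact Submodule.sum_mem _ fun j _ => Submodule.subset_span
      ⟨MvPolynomial.X j, _, MvPolynomial.isHomogeneous_X k j, rfl⟩

lemma mem_forms_zero {i : ℕ} {ω : Fn C i} :
    ω ∈ forms C i 0 ↔ ∃ β : (Fin m → k) [⋀^Fin i]→ₗ[k] k, ∀ x, ω x = β := by
  constructor
  · intro h
    let S : Submodule k (Fn C i) :=
      { carrier := {ω | ∃ β : (Fin m → k) [⋀^Fin i]→ₗ[k] k, ∀ x, ω x = β}
        zero_mem' := ⟨0, fun _ => rfl⟩
        add_mem' := by
          rintro a b ⟨α, hα⟩ ⟨β, hβ⟩
          exact ⟨α + β, fun x => by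
            change a x + b x = α + β
            rw [hα, hβ]⟩
        smul_mem' := by
          rintro c a ⟨α, hα⟩
          exact ⟨c • α, fun x => by
            change c • a x = c • α
            rw [hα]⟩ }
    have hle : forms C i 0 ≤ S := by
      refine Submodule.span_le.2 ?_
      rintro _ ⟨F, η, hF, rfl⟩
      have h1 : F.totalDegree = 0 := Nat.le_zero.1 hF.totalDegree_le
      rw [MvPolynomial.totalDegree_eq_zero_iff_eq_C] at h1
      refine ⟨F.coeff 0 • η, fun x => ?_⟩
      rw [h1]
      simp
    exact hle h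
  · rintro ⟨β, hβ⟩
    refine Submodule.subset_span ⟨1, β, MvPolynomial.isHomogeneous_one _ _, ?_⟩
    funext x
    rw [hβ, map_one, one_smul]

/-- a generator of a line -/
noncomputable def gen {W : Type} [AddCommGroup W] [Module k W] (P : Submodule k W) : W := by
  classical
  exact if h : ∃ x ∈ P, x ≠ 0 then h.choose else 0

lemma gen_spec {W : Type} [AddCommGroup W] [Module k W] {P : Submodule k W}
    (h : Module.finrank k P = 1) : gen P ∈ P ∧ gen P ≠ 0 ∧ ∀ x ∈ P, ∃ c : k, x = c • gen P := by
  have h1 : ∃ x ∈ P, x ≠ 0 := by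
    refine Submodule.exists_mem_ne_zero_of_ne_bot ?_
    rintro rfl
    simp at h
  have h2 : gen P ∈ P ∧ gen P ≠ 0 := by
    unfold gen
    rw [dif_pos h1]
    exact h1.choose_spec
  refine ⟨h2.1, h2.2, fun x hx => ?_⟩
  have h3 : (⟨gen P, h2.1⟩ : P) ≠ 0 := fun h0 => h2.2 (congrArg Subtype.val h0)
  obtain ⟨c, hc⟩ := (finrank_eq_one_iff_of_nonzero' _ h3).1 h ⟨x, hx⟩
  exact ⟨c, (congrArg Subtype.val hc).symm⟩

/-- the intersection points -/
noncomputable def pts {V : Type} (G : SimpleGraph V) {W : Type} [AddCommGroup W] [Module k W]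
    (ℓ : V → Submodule k W) (u v : V) : W := by
  classical
  exact if G.Adj u v then gen (ℓ u ⊓ ℓ v) else 0

lemma pts_adj {V : Type} {G : SimpleGraph V} {W : Type} [AddCommGroup W] [Module k W]
    (ℓ : V → Submodule k W) {u v : V} (h : G.Adj u v) : pts G ℓ u v = gen (ℓ u ⊓ ℓ v) := by
  unfold pts
  rw [if_pos h]

lemma pts_symm {V : Type} {G : SimpleGraph V} {W : Type} [AddCommGroup W] [Module k W]
    (ℓ : V → Submodule k W) (u v : V) : pts G ℓ u v = pts G ℓ v u := by
  unfold pts
  rw [inf_comm]
  congr 1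
  exact propext ⟨fun h => h.symm, fun h => h.symm⟩

lemma plane_basis {W : Type} [AddCommGroup W] [Module k W] {P : Submodule k W}
    (h : Module.finrank k P = 2) : ∃ a ∈ P, ∃ b ∈ P, LinearIndependent k ![a, b] ∧
      ∀ x ∈ P, ∃ s t : k, x = s • a + t • b := by
  have : FiniteDimensional k P := Module.finite_of_finrank_pos (by omega)
  set e := Module.finBasisOfFinrankEq k P h
  refine ⟨e 0, (e 0).2, e 1, (e 1).2, ?_, ?_⟩
  · have h1 := e.linearIndependent.map' P.subtype P.ker_subtype
    have h2 : ![((e 0 : P) : W), ((e 1 : P) : W)] = P.subtype ∘ e := by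
      funext j
      fin_cases j <;> rfl
    rw [h2]
    exact h1
  · intro x hx
    refine ⟨e.repr ⟨x, hx⟩ 0, e.repr ⟨x, hx⟩ 1, ?_⟩
    have h1 := congrArg Subtype.val (e.sum_repr ⟨x, hx⟩)
    rw [Fin.sum_univ_two] at h1
    exact h1.symm

lemma connected_delete {V : Type} {G : SimpleGraph V} (hG : G.Connected) {a b : V}
    (h : (G.deleteEdges {s(a, b)}).Reachable a b) : (G.deleteEdges {s(a, b)}).Connected := by
  refine { preconnected := fun u v => ?_, nonempty := ⟨a⟩ }
  obtain ⟨q⟩ := hG.preconnected u v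
  induction q with
  | nil => exact Reachable.refl _
  | @cons u u' v huu q ih =>
    refine Reachable.trans ?_ ih
    by_cases hh : s(u, u') = s(a, b)
    · rw [Sym2.eq_iff] at hh
      rcases hh with ⟨rfl, rfl⟩ | ⟨rfl, rfl⟩
      · exact h
      · exact h.symm
    · exact Adj.reachable (by
        rw [deleteEdges_adj]
        exact ⟨huu, by simpa using hh⟩)

lemma nondeg {V : Type} [Fintype V] [DecidableEq V] {G : SimpleGraph V} [DecidableRel G.Adj]
    (hG : ConditionA G) {N : ℕ} {ℓ : V → Submodule k (Fin (N + 2) → k)} (hℓ : IsGraphCurve G ℓ)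
    (hn : (N : ℤ) + 1 = Nat.card V - genus (⊤ : G.Subgraph)) : Nondeg G ℓ (pts G ℓ) := by
  have hg : ∀ u v, G.Adj u v → _ := fun u v h => gen_spec (hℓ.meet u v h)
  have hdeg : ∀ v, (G.neighborSet v).ncard = G.degree v := by
    intro v
    rw [← SimpleGraph.card_neighborFinset_eq_degree, ← Set.ncard_coe_finset]
    congr 1
    ext w
    simp
  refine { symm := pts_symm ℓ, zero := ?_, mem := ?_, ne := ?_, ind := ?_, conn := hG.connected,
           deg_le := ?_, deg_ne := ?_, finrank := hℓ.line, span := hℓ.nondegenerate, dim := ?_ }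
  · intro u v h
    unfold pts
    rw [if_neg h]
  · intro u v
    by_cases h : G.Adj u v
    · rw [pts_adj ℓ h]
      exact (hg u v h).1.1
    · unfold pts
      rw [if_neg h]
      exact zero_mem _
  · intro u v h
    rw [pts_adj ℓ h]
    exact (hg u v h).2.1
  · intro u v v' h h' hvv
    rw [pts_adj ℓ h, pts_adj ℓ h', LinearIndependent.pair_iff' (hg u v h).2.1]
    intro c hc
    apply hvv
    have hle : ℓ u ⊓ ℓ v' ≤ ℓ u ⊓ ℓ v := by
      intro x hx
      obtain ⟨d, hd⟩ := (hg u v' h').2.2 x hx
      rw [hd, ← hc]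
      exact Submodule.smul_mem _ _ (Submodule.smul_mem _ _ (hg u v h).1)
    have heq : ℓ u ⊓ ℓ v' = ℓ u ⊓ ℓ v :=
      Submodule.eq_of_le_of_finrank_eq hle (by rw [hℓ.meet u v' h', hℓ.meet u v h])
    have h3 := hℓ.points u v u v' h h' heq.symm
    rw [Sym2.eq_iff] at h3
    rcases h3 with ⟨-, h4⟩ | ⟨h4, h5⟩
    · exact h4
    · rw [h5, h4]
  · intro v
    rw [← hdeg]
    exact hG.degree_le v
  · obtain ⟨v, hv⟩ := hG.degree_ne
    exact ⟨v, by rwa [← hdeg]⟩
  · rw [Module.finrank_fintype_fun_eq_card, Fintype.card_fin]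
    have h1 : (⊤ : G.Subgraph).edgeSet.ncard = Fintype.card G.edgeSet := by
      rw [Subgraph.edgeSet_top, ← Nat.card_coe_set_eq, Nat.card_eq_fintype_card]
    have h2 : (⊤ : G.Subgraph).verts.ncard = Fintype.card V := by
      rw [Subgraph.verts_top, Set.ncard_univ, Nat.card_eq_fintype_card]
    rw [genus, h1, h2, Nat.card_eq_fintype_card] at hn
    omega

lemma mem_ker_comp {N : ℕ} {x : Fin (N + 2) → k} : (nu k (N + 1) x).curryLeft x = 0 :=
  AlternatingMap.curryLeft_same (vol k (N + 2)) x

/-- the main theorem for the configuration -/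
theorem main {V : Type} [Fintype V] [DecidableEq V] [CharZero k] {G : SimpleGraph V}
    [DecidableRel G.Adj] (hG : ConditionA G) {N : ℕ} {ℓ : V → Submodule k (Fin (N + 2) → k)}
    (hℓ : IsGraphCurve G ℓ) (hn : (N : ℤ) + 1 = Nat.card V - genus (⊤ : G.Subgraph)) :
    betti (cone ℓ) N 0 = (bridges G).ncard := by
  classical
  have hN := nondeg hG hℓ hn
  have hA : ∀ H : G.Subgraph, H.Connected → 2 * H.edgeSet.ncard + 3 ≤ 3 * H.verts.ncard := by
    intro H hH
    have := hG.genus_le H hH
    unfold genus at this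
    omega
  have hX : ∀ u v, G.Adj u v → ∀ x ∈ ℓ u ⊓ ℓ v, ∃ c : k, x = c • pts G ℓ u v := by
    intro u v h x hx
    rw [pts_adj ℓ h]
    exact (gen_spec (hℓ.meet u v h)).2.2 x hx
  set W := Fin (N + 2) → k
  have hνinj : Function.Injective (nu k (N + 1)) := by
    rw [injective_iff_map_eq_zero]
    intro x hx
    exact nu_inj hx
  -- the bridges
  set B := bridges G with hB
  have : Fintype B := Fintype.ofFinite B
  set a : B → V := fun b => (Quot.out b.1).1 with ha
  set d : B → V := fun b => (Quot.out b.1).2 with hd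
  have hab : ∀ b : B, s(a b, d b) = b.1 := fun b => Quot.out_eq b.1
  have hadj : ∀ b : B, G.Adj (a b) (d b) := by
    intro b
    have h1 : s(a b, d b) ∈ G.edgeSet := by
      rw [hab b]
      exact b.2.1
    exact h1
  set side : B → V → Prop := fun b v => (G.deleteEdges {b.1}).Reachable (a b) v with hside
  have hsa : ∀ b, side b (a b) := fun b => Reachable.refl _
  have hsd : ∀ b, ¬ side b (d b) := by
    intro b h
    apply b.2.2
    rw [← hab b]
    refine connected_delete hG.connected ?_
    rw [hab b]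
    exact h
  have hss : ∀ b u v, G.Adj u v → s(u, v) ≠ b.1 → (side b u ↔ side b v) := by
    intro b u v huv hne
    have h1 : (G.deleteEdges {b.1}).Adj u v := by
      rw [deleteEdges_adj]
      exact ⟨huv, by simpa using hne⟩
    exact ⟨fun h => h.trans h1.reachable, fun h => h.trans h1.symm.reachable⟩
  set xb : B → W := fun b => pts G ℓ (a b) (d b) with hxb
  have hbx : ∀ (b : B) u v, G.Adj u v → s(u, v) = b.1 → pts G ℓ u v = xb b := by
    intro b u v huv hs
    rw [← hab b, Sym2.eq_iff] at hs
    rcases hs with ⟨rfl, rfl⟩ | ⟨rfl, rfl⟩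
    · rfl
    · exact pts_symm ℓ _ _
  -- the linear maps of the bridges
  have hF : ∀ b : B, ∃ F : W →ₗ[k] (W [⋀^Fin N]→ₗ[k] k), ∀ v, ∀ x ∈ ℓ v,
      F x = if side b v then (nu k (N + 1) (xb b)).curryLeft x else 0 := by
    intro b
    obtain ⟨F, hF⟩ := hN.extend (Y := W [⋀^Fin N]→ₗ[k] k)
      (fun v => if side b v then (nu k (N + 1) (xb b)).curryLeft ∘ₗ (ℓ v).subtype else 0) (by
        intro u v huv x hx hx'
        by_cases hs : s(u, v) = b.1
        · obtain ⟨c, hc⟩ := hX u v huv x ⟨hx, hx'⟩
          rw [hbx b u v huv hs] at hc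
          have h0 : (nu k (N + 1) (xb b)).curryLeft x = 0 := by
            rw [hc, map_smul, mem_ker_comp, smul_zero]
          have h1 : ∀ w (hw : x ∈ ℓ w), (if side b w then
              (nu k (N + 1) (xb b)).curryLeft ∘ₗ (ℓ w).subtype else 0) (⟨x, hw⟩ : ℓ w) = 0 := by
            intro w hw
            split_ifs
            · exact h0
            · rfl
          rw [h1 u hx, h1 v hx']
        · have h1 := hss b u v huv hs
          by_cases h2 : side b u
          · rw [if_pos h2, if_pos (h1.1 h2)]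
            rfl
          · rw [if_neg h2, if_neg (fun h3 => h2 (h1.2 h3))]
            rfl)
    refine ⟨F, fun v x hx => ?_⟩
    rw [hF v ⟨x, hx⟩]
    split_ifs
    · rfl
    · rfl
  choose F hF using hF
  set pc : (B → k) → V → (W [⋀^Fin (N + 1)]→ₗ[k] k) := fun c v =>
    ∑ b, c b • (if side b v then nu k (N + 1) (xb b) else 0) with hpc
  have hEv : ∀ (c : B → k) (v : V), ∀ x ∈ ℓ v, ∑ b, c b • F b x = (pc c v).curryLeft x := by
    intro c v x hx
    have h1 : (pc c v).curryLeft x = ∑ b, (c b • (if side b v then nu k (N + 1) (xb b)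
        else 0)).curryLeft x := by
      have h2 := map_sum (AlternatingMap.curryLeftLinearMap (R := k) (M := W) (N := k) (n := N))
        (fun b => c b • (if side b v then nu k (N + 1) (xb b) else 0)) Finset.univ
      have h3 := congrArg (fun f => f x) h2
      simp only [LinearMap.sum_apply] at h3
      exact h3
    rw [h1]
    refine Finset.sum_congr rfl fun b _ => ?_
    rw [hF b v x hx, AlternatingMap.curryLeft_smul, LinearMap.smul_apply]
    congr 1
    split_ifs
    · rfl
    · simp
  let E : (B → k) →ₗ[k] Fn (cone ℓ) N :=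
    { toFun := fun c x => ∑ b, c b • F b x.1
      map_add' := by
        intro c c'
        funext x
        change ∑ b, (c b + c' b) • F b x.1 = ∑ b, c b • F b x.1 + ∑ b, c' b • F b x.1
        simp only [add_smul, Finset.sum_add_distrib]
      map_smul' := by
        intro t c
        funext x
        change ∑ b, (t * c b) • F b x.1 = t • ∑ b, c b • F b x.1
        simp only [mul_smul, Finset.smul_sum] }
  have hE : ∀ c (x : cone ℓ), E c x = ∑ b, c b • F b x.1 := fun _ _ => rfl
  have hEc : ∀ c, E c ∈ cycles (cone ℓ) N (0 + 1) := by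
    intro c
    refine ⟨mem_forms_one.2 ⟨∑ b, c b • F b, fun x => ?_⟩, ?_⟩
    · rw [hE]
      simp
    · rintro ⟨x, v, hx⟩ w hw
      rw [hE, hEv c v x hx]
      exact kills_curryLeft_self w hw
  let Ψ : (B → k) →ₗ[k] (cycles (cone ℓ) N (0 + 1) ⧸
      ((forms (cone ℓ) (N + 1) 0).map (koszul (cone ℓ) N)).comap
        (cycles (cone ℓ) N (0 + 1)).subtype) :=
    (Submodule.mkQ _) ∘ₗ (LinearMap.codRestrict _ E hEc)
  have huniq : ∀ v (p q : W [⋀^Fin (N + 1)]→ₗ[k] k), (∀ x ∈ ℓ v, p.curryLeft x = q.curryLeft x) →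
      p = q := by
    intro v p q h
    obtain ⟨x, hx, y, hy, hxy, -⟩ := plane_basis (hℓ.line v)
    have h1 : ∀ z ∈ ℓ v, Kills z (p - q) := by
      intro z hz
      rw [kills_iff]
      ext w
      have h2 := congrArg (fun f => f w) (h z hz)
      simp only [AlternatingMap.curryLeft_apply_apply] at h2
      simp [h2]
    exact sub_eq_zero.1 (eq_zero_of_kills hxy (h1 x hx) (h1 y hy))
  have hite : ∀ b u v, (side b u ↔ side b v) →
      (if side b u then nu k (N + 1) (xb b) else 0) = if side b v then nu k (N + 1) (xb b) else 0 := by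
    intro b u v h
    by_cases h1 : side b u
    · rw [if_pos h1, if_pos (h.1 h1)]
    · rw [if_neg h1, if_neg (fun h2 => h1 (h.2 h2))]
  have hpcadj : ∀ (c : B → k) u v, G.Adj u v → (∀ b : B, s(u, v) ≠ b.1) → pc c u = pc c v := by
    intro c u v huv hb
    simp only [hpc]
    refine Finset.sum_congr rfl fun b _ => ?_
    rw [hite b u v (hss b u v huv (hb b))]
  have hpcb : ∀ (c : B → k) (b : B), pc c (a b) - pc c (d b) = c b • nu k (N + 1) (xb b) := by
    intro c b
    simp only [hpc]
    rw [← Finset.sum_sub_distrib, Finset.sum_eq_single b]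
    · rw [if_pos (hsa b), if_neg (hsd b), smul_zero, sub_zero]
    · intro b' _ hne
      have h1 : s(a b, d b) ≠ b'.1 := by
        rw [hab b]
        exact fun h => hne (Subtype.ext h.symm)
      rw [hite b' _ _ (hss b' _ _ (hadj b) h1), sub_self]
    · simp
  have hinj : Function.Injective Ψ := by
    rw [injective_iff_map_eq_zero]
    intro c hc
    have h1 : E c ∈ (forms (cone ℓ) (N + 1) 0).map (koszul (cone ℓ) N) := by
      have h2 := (Submodule.Quotient.mk_eq_zero _).1 hc
      exact h2
    obtain ⟨η, hη, hηE⟩ := h1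
    obtain ⟨β, hβ⟩ := mem_forms_zero.1 hη
    have h3 : ∀ v, pc c v = β := by
      intro v
      refine huniq v _ _ fun x hx => ?_
      have h4 := congrArg (fun f : Fn (cone ℓ) N => f ⟨x, v, hx⟩) hηE
      have h5 : (η ⟨x, v, hx⟩).curryLeft x = E c ⟨x, v, hx⟩ := h4
      rw [hβ, hE, hEv c v x hx] at h5
      exact h5.symm
    funext b
    have h6 := hpcb c b
    rw [h3, h3, sub_self] at h6
    rcases smul_eq_zero.1 h6.symm with h7 | h7
    · exact h7
    · exact absurd (nu_inj h7) (hN.ne _ _ (hadj b))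
  have hsurj : Function.Surjective Ψ := by
    intro z
    obtain ⟨⟨ω, hω⟩, rfl⟩ := Submodule.Quotient.mk_surjective _ z
    obtain ⟨α, hα⟩ := mem_forms_one.1 hω.1
    have hkill : ∀ v, ∀ x ∈ ℓ v, Kills x (α x) := by
      intro v x hx w hw
      have := hω.2 ⟨x, v, hx⟩ w hw
      rwa [hα] at this
    have hP : ∀ v, ∃ P : W [⋀^Fin (N + 1)]→ₗ[k] k, ∀ x ∈ ℓ v, P.curryLeft x = α x := by
      intro v
      obtain ⟨x, hx, y, hy, hxy, hspan⟩ := plane_basis (hℓ.line v)
      obtain ⟨P, h1, h2⟩ := exists_primitive hxy (hkill v x hx) (hkill v y hy) (by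
        have := hkill v (x + y) (add_mem hx hy)
        rwa [map_add] at this)
      refine ⟨P, fun z hz => ?_⟩
      obtain ⟨s, t, rfl⟩ := hspan z hz
      rw [map_add, map_smul, map_smul, h1, h2, map_add, map_smul, map_smul]
    choose P hP using hP
    have hdiff : ∀ u v, G.Adj u v → ∃ c : k, P u - P v = c • nu k (N + 1) (pts G ℓ u v) := by
      intro u v huv
      refine exists_smul_nu (hN.ne u v huv) ?_
      rw [kills_iff]
      have hu : pts G ℓ u v ∈ ℓ u := hN.mem u v
      have hv : pts G ℓ u v ∈ ℓ v := by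
        rw [pts_symm]
        exact hN.mem v u
      have h1 := (hP u _ hu).trans (hP v _ hv).symm
      ext w
      have h2 := congrArg (fun f => f w) h1
      simp only [AlternatingMap.curryLeft_apply_apply] at h2
      simp [h2]
    have hcb : ∀ b : B, ∃ c : k, P (a b) - P (d b) = c • nu k (N + 1) (xb b) :=
      fun b => hdiff _ _ (hadj b)
    choose cb hcb using hcb
    have hq : ∀ u v, G.Adj u v → P u - pc cb u = P v - pc cb v := by
      intro u v huv
      by_cases hb : ∃ b : B, s(u, v) = b.1
      · obtain ⟨b, hb⟩ := hb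
        rw [← hab b, Sym2.eq_iff] at hb
        have h1 := hcb b
        rw [← hpcb cb b] at h1
        rcases hb with ⟨rfl, rfl⟩ | ⟨rfl, rfl⟩
        · rw [sub_eq_sub_iff_sub_eq_sub]
          exact h1
        · rw [sub_eq_sub_iff_sub_eq_sub, ← neg_sub (P (a b)), h1, neg_sub]
      · push Not at hb
        have h1 : (G.deleteEdges {s(u, v)}).Connected := by
          by_contra hn
          exact hb ⟨s(u, v), huv, hn⟩ rfl
        rw [hpcadj cb u v huv hb, hN.eq_of_not_bridge hA hνinj hdiff huv h1]
    obtain ⟨v₀⟩ := hG.connected.nonempty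
    have hconst : ∀ v, P v - pc cb v = P v₀ - pc cb v₀ := by
      intro v
      obtain ⟨q⟩ := hG.connected.preconnected v v₀
      induction q with
      | nil => rfl
      | @cons u u' w huu q ih => rw [hq u u' huu, ih]
    refine ⟨cb, ?_⟩
    refine (Submodule.Quotient.eq _).2 ?_
    rw [Submodule.mem_comap]
    refine ⟨fun _ => - (P v₀ - pc cb v₀), mem_forms_zero.2 ⟨_, fun _ => rfl⟩, ?_⟩
    funext ⟨x, v, hx⟩
    change (- (P v₀ - pc cb v₀)).curryLeft x = E cb ⟨x, v, hx⟩ - ω ⟨x, v, hx⟩
    rw [hE, hEv cb v x hx, hα, ← hP v x hx, ← hconst v]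
    ext w
    simp
  have hfin := LinearEquiv.finrank_eq (LinearEquiv.ofBijective Ψ ⟨hinj, hsurj⟩)
  rw [Module.finrank_fintype_fun_eq_card] at hfin
  rw [betti, ← hfin, ← Nat.card_coe_set_eq, Nat.card_eq_fintype_card]

end proof

/-- Let `G` be a finite simple graph which satisfies (A) (planarity is not needed), `k` a field of
characteristic zero, and let the lines `ℓ v` in `P^n`, `n = N + 1 = d - g`, form a graph curve of `G`.
Then the graded Betti number `b_{n-1,n}` of the graph curve is the number of the bridges of `G`. -/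
theorem result {k : Type} [Field k] [CharZero k] {V : Type} [Finite V] (G : SimpleGraph V)
    (hG : ConditionA G) {N : ℕ} (ℓ : V → Submodule k (Fin (N + 2) → k)) (hℓ : IsGraphCurve G ℓ)
    (hn : (N : ℤ) + 1 = Nat.card V - genus (⊤ : G.Subgraph)) :
    betti (cone ℓ) N 0 = (bridges G).ncard := by
  classical
  have := Fintype.ofFinite V
  exact main hG hℓ hn

end Pool.Agent.Results.MP_764677_ag.BridgesAndBetti
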